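import Mathlib

namespace Pool.Agent.Results.MP_9bc523_co.NoSupersaturation

open Finset

/-- A system of `l` linear equations `A x = c` in `k` unknowns with integer coefficients. -/
structure LinSys where
  /-- number of equations -/
  l : ℕ
  /-- number of unknowns -/
  k : ℕ
  /-- the matrix -/
  A : Matrix (Fin l) (Fin k) ℤ
  /-- the right-hand side -/
  c : Fin l → ℤ

/-- the homogeneous version of a system -/
def LinSys.hom (S : LinSys) : LinSys := ⟨S.l, S.k, S.A, 0⟩

/-- the matrix has full rank `l` -/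
def LinSys.FullRank (S : LinSys) : Prop := (S.A.map (Int.cast : ℤ → ℚ)).rank = S.l

/-- `x` is a `k`-distinct solution in positive integers -/
def LinSys.IsSol (S : LinSys) (x : Fin S.k → ℕ) : Prop :=
  (∀ i, 1 ≤ x i) ∧ Function.Injective x ∧ S.A.mulVec (fun i => (x i : ℤ)) = S.c

/-- there is a `k`-distinct solution in the positive integers -/
def LinSys.Irredundant (S : LinSys) : Prop := ∃ x, S.IsSol x

/-- the positive integers are `(A_1,…,A_r)`-Rado -/
def Rado {r : ℕ} (A : Fin r → LinSys) : Prop :=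
  ∀ χ : ℕ → Fin r, ∃ (i : Fin r) (x : Fin (A i).k → ℕ), (A i).IsSol x ∧ ∀ j, χ (x j) = i

open Classical in
/-- the number of solutions to `S` in `[n] = {1,…,n}` all of whose entries have colour `i` -/
noncomputable def count {r : ℕ} (S : LinSys) (n : ℕ) (χ : ℕ → Fin r) (i : Fin r) : ℕ :=
  ((Fintype.piFinset fun _ : Fin S.k => Icc 1 n).filter
    (fun x => S.IsSol x ∧ ∀ j, χ (x j) = i)).card

/-- the system `x - 2 y = b` -/
def sys (b : ℤ) : LinSys := ⟨1, 2, !![1, -2], ![b]⟩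

theorem sys_isSol (b : ℤ) (x : Fin 2 → ℕ) :
    (sys b).IsSol x ↔ 1 ≤ x 0 ∧ 1 ≤ x 1 ∧ x 0 ≠ x 1 ∧ (x 0 : ℤ) - 2 * (x 1 : ℤ) = b := by
  have hmul : (!![1, -2] : Matrix (Fin 1) (Fin 2) ℤ).mulVec (fun i => (x i : ℤ)) =
      ![(x 0 : ℤ) - 2 * (x 1 : ℤ)] := by
    funext i
    fin_cases i
    simp [Matrix.mulVec, dotProduct, Fin.sum_univ_two]
    ring
  have hdef : (sys b).IsSol x ↔ (∀ i : Fin 2, 1 ≤ x i) ∧ Function.Injective x ∧
      (!![1, -2] : Matrix (Fin 1) (Fin 2) ℤ).mulVec (fun i => (x i : ℤ)) = ![b] := Iff.rfl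
  rw [hdef, hmul]
  constructor
  · rintro ⟨h1, h2, h3⟩
    refine ⟨h1 0, h1 1, fun h => absurd (h2 h) (by decide), ?_⟩
    have := congrFun h3 0
    simpa using this
  · rintro ⟨h1, h2, h3, h4⟩
    refine ⟨?_, ?_, by rw [h4]⟩
    · intro i
      fin_cases i
      · exact h1
      · exact h2
    · intro i j hij
      fin_cases i <;> fin_cases j
      · rfl
      · exact absurd hij h3
      · exact absurd hij.symm h3
      · rfl

theorem fullRank (b : ℤ) : (sys b).FullRank := by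
  have h : LinearIndependent ℚ ((!![1, -2] : Matrix (Fin 1) (Fin 2) ℤ).map
      (Int.cast : ℤ → ℚ)).row := by
    apply LinearIndependent.of_subsingleton (i := (0 : Fin 1))
    intro h
    have h3 := congrFun h (0 : Fin 2)
    simp [Matrix.row] at h3
  have := h.rank_matrix
  simp only [Fintype.card_fin] at this
  exact this

/-- the pair of systems `x = 2y` and `x = 2y + 2` -/
def pair : Fin 2 → LinSys := ![sys 0, sys 2]

theorem rado : Rado pair := by
  intro χ
  by_contra hcon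
  have h0 : ∀ y, 1 ≤ y → ¬ (χ y = 0 ∧ χ (2 * y) = 0) := by
    rintro y hy ⟨h1, h2⟩
    apply hcon
    refine ⟨0, (![2 * y, y] : Fin 2 → ℕ), (sys_isSol 0 _).2 ⟨?_, ?_, ?_, ?_⟩, ?_⟩
    · simp; omega
    · simpa using hy
    · simp; omega
    · simp
    · intro j
      have : ∀ j : Fin 2, χ ((![2 * y, y] : Fin 2 → ℕ) j) = 0 := by
        intro j
        fin_cases j
        · exact h2
        · exact h1
      exact this j
  have h2 : ∀ y, 1 ≤ y → ¬ (χ y = 1 ∧ χ (2 * y + 2) = 1) := by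
    rintro y hy ⟨h1, h2⟩
    apply hcon
    refine ⟨1, (![2 * y + 2, y] : Fin 2 → ℕ), (sys_isSol 2 _).2 ⟨?_, ?_, ?_, ?_⟩, ?_⟩
    · simp
    · simpa using hy
    · simp; omega
    · simp
    · intro j
      have : ∀ j : Fin 2, χ ((![2 * y + 2, y] : Fin 2 → ℕ) j) = 1 := by
        intro j
        fin_cases j
        · exact h2
        · exact h1
      exact this j
  have f : ∀ y, 1 ≤ y → 1 ≤ (χ y : ℕ) + (χ (2 * y) : ℕ) := by
    intro y hy
    have h := h0 y hy
    by_contra hc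
    exact h ⟨Fin.ext (by show (χ y : ℕ) = 0; omega), Fin.ext (by show (χ (2 * y) : ℕ) = 0; omega)⟩
  have g : ∀ y, 1 ≤ y → (χ y : ℕ) + (χ (2 * y + 2) : ℕ) ≤ 1 := by
    intro y hy
    have h := h2 y hy
    have b1 := (χ y).2
    have b2 := (χ (2 * y + 2)).2
    by_contra hc
    exact h ⟨Fin.ext (by show (χ y : ℕ) = 1; omega),
      Fin.ext (by show (χ (2 * y + 2) : ℕ) = 1; omega)⟩
  have f1 := f 1 (by norm_num)
  have f2 := f 2 (by norm_num)
  have f3 := f 3 (by norm_num)
  have f4 := f 4 (by norm_num)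
  have f5 := f 5 (by norm_num)
  have f6 := f 6 (by norm_num)
  have g1 := g 1 (by norm_num)
  have g2 := g 2 (by norm_num)
  have g3 := g 3 (by norm_num)
  have g4 := g 4 (by norm_num)
  have g5 := g 5 (by norm_num)
  norm_num at f1 f2 f3 f4 f5 f6 g1 g2 g3 g4 g5
  omega

/-- the colouring by the parity of `⌊log₂ n⌋` -/
def chi (n : ℕ) : Fin 2 := ⟨Nat.log 2 n % 2, Nat.mod_lt _ (by norm_num)⟩

theorem log_two_mul {y : ℕ} (hy : 1 ≤ y) : Nat.log 2 (2 * y) = Nat.log 2 y + 1 := by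
  rw [mul_comm]
  exact Nat.log_mul_base (by norm_num) (by omega)

theorem count_zero (n : ℕ) (i : Fin 2) : count (sys 0) n chi i = 0 := by
  classical
  unfold count
  rw [card_eq_zero, filter_eq_empty_iff]
  rintro x _ ⟨h1, h2⟩
  have h3 := (sys_isSol 0 x).1 h1
  have h4 : x (0 : Fin 2) = 2 * x (1 : Fin 2) := by omega
  have h5 : chi (x (0 : Fin 2)) = chi (x (1 : Fin 2)) :=
    (h2 (0 : Fin 2)).trans (h2 (1 : Fin 2)).symm
  simp only [chi, Fin.mk.injEq] at h5
  rw [h4, log_two_mul h3.2.1] at h5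
  omega

theorem count_two (n : ℕ) (i : Fin 2) : count (sys 2) n chi i ≤ Nat.log 2 n + 1 := by
  classical
  unfold count
  rw [← card_range (Nat.log 2 n + 1)]
  apply card_le_card_of_injOn (fun x => Nat.log 2 (x (1 : Fin 2)))
  · intro x hx
    rw [mem_coe, mem_filter, Fintype.mem_piFinset] at hx
    have := mem_Icc.1 (hx.1 (1 : Fin 2))
    rw [mem_coe, mem_range]
    have h2 := Nat.log_mono_right (b := 2) this.2
    show Nat.log 2 (x (1 : Fin 2)) < Nat.log 2 n + 1
    omega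
  · have key : ∀ x : Fin 2 → ℕ, (sys 2).IsSol x → (∀ j, chi (x j) = i) →
        x 0 = 2 * x 1 + 2 ∧ x 1 + 1 = 2 ^ (Nat.log 2 (x 1) + 1) := by
      intro x h1 h2
      have h3 := (sys_isSol 2 x).1 h1
      have h4 : x 0 = 2 * (x 1 + 1) := by omega
      have h5 : chi (x 0) = chi (x 1) := (h2 0).trans (h2 1).symm
      simp only [chi, Fin.mk.injEq] at h5
      rw [h4, log_two_mul (by omega)] at h5
      refine ⟨by omega, ?_⟩
      have a1 : x 1 < 2 ^ (Nat.log 2 (x 1) + 1) := Nat.lt_pow_succ_log_self (by norm_num) _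
      by_contra hne
      have a2 : x 1 + 1 < 2 ^ (Nat.log 2 (x 1) + 1) := by omega
      have a3 : Nat.log 2 (x 1 + 1) < Nat.log 2 (x 1) + 1 :=
        (Nat.log_lt_iff_lt_pow (by norm_num) (by omega)).2 a2
      have a4 : Nat.log 2 (x 1) ≤ Nat.log 2 (x 1 + 1) := Nat.log_mono_right (by omega)
      omega
    intro x hx x' hx' hxx
    rw [mem_coe, mem_filter] at hx hx'
    obtain ⟨e1, e2⟩ := key x hx.2.1 hx.2.2
    obtain ⟨e1', e2'⟩ := key x' hx'.2.1 hx'.2.2
    have hxx' : Nat.log 2 (x (1 : Fin 2)) = Nat.log 2 (x' (1 : Fin 2)) := hxx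
    rw [hxx'] at e2
    have h1 : x (1 : Fin 2) = x' (1 : Fin 2) := by omega
    have h0 : x (0 : Fin 2) = x' (0 : Fin 2) := by omega
    have : ∀ j : Fin 2, x j = x' j := by
      intro j
      fin_cases j
      · exact h0
      · exact h1
    funext j
    exact this j

/-- **Main theorem.** There are systems `A_1, A_2` (namely `x = 2y` and `x = 2y + 2`) satisfying all
the hypotheses of the question for which asymmetric supersaturation fails. -/
theorem result : ∃ (r : ℕ) (A : Fin r → LinSys), 0 < r ∧ (∀ i, (A i).FullRank) ∧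
    (∀ i, (A i).Irredundant) ∧ (∀ i, (A i).hom.Irredundant) ∧ Rado A ∧
    ∀ (c : ℝ) (n₀ : ℕ), 0 < c → ∃ n : ℕ, n₀ < n ∧ ∃ χ : ℕ → Fin r, ∀ i,
      (count (A i) n χ i : ℝ) < c * (n : ℝ) ^ ((A i).k - (A i).l) := by
  have sol0 : (sys 0).Irredundant := ⟨![2, 1], (sys_isSol 0 _).2 (by simp)⟩
  have sol2 : (sys 2).Irredundant := ⟨![4, 1], (sys_isSol 2 _).2 (by simp)⟩
  have hhom : ∀ b, (sys b).hom = sys 0 := by
    intro b
    unfold LinSys.hom sys
    congr 1
    funext i
    fin_cases i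
    rfl
  refine ⟨2, pair, by norm_num, ?_, ?_, ?_, rado, ?_⟩
  · intro i
    fin_cases i
    · exact fullRank 0
    · exact fullRank 2
  · intro i
    fin_cases i
    · exact sol0
    · exact sol2
  · intro i
    fin_cases i
    · show (sys 0).hom.Irredundant
      rw [hhom]; exact sol0
    · show (sys 2).hom.Irredundant
      rw [hhom]; exact sol0
  · intro c n₀ hc
    obtain ⟨m, hm⟩ : ∃ m : ℕ, 3 / c + n₀ < 2 ^ m := by
      obtain ⟨m, hm⟩ := pow_unbounded_of_one_lt (3 / c + n₀) (show (1 : ℝ) < 2 by norm_num)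
      exact ⟨m, hm⟩
    have hc3 : 0 < 3 / c := by positivity
    have h1 : (n₀ : ℝ) < 2 ^ m := by linarith
    have h2 : 3 < c * 2 ^ m := by
      have : 3 / c < 2 ^ m := by
        have : (0 : ℝ) ≤ n₀ := by positivity
        linarith
      rw [div_lt_iff₀ hc] at this
      linarith
    have hn₀ : n₀ < 2 ^ m := by exact_mod_cast h1
    refine ⟨2 ^ (2 * m), ?_, chi, ?_⟩
    · exact lt_of_lt_of_le hn₀ (Nat.pow_le_pow_right (by norm_num) (by omega))
    · have hpow : ((2 ^ (2 * m) : ℕ) : ℝ) = 2 ^ m * 2 ^ m := by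
        push_cast
        rw [two_mul, pow_add]
      have hmm : (m : ℝ) < 2 ^ m := by exact_mod_cast Nat.lt_two_pow_self
      have h2m : (1 : ℝ) ≤ 2 ^ m := one_le_pow₀ (by norm_num)
      have hbound : (2 * m + 1 : ℝ) < c * ((2 ^ (2 * m) : ℕ) : ℝ) := by
        rw [hpow]
        have : 3 * (2 : ℝ) ^ m < c * 2 ^ m * 2 ^ m :=
          mul_lt_mul_of_pos_right h2 (by positivity)
        nlinarith
      have hlog : Nat.log 2 (2 ^ (2 * m)) = 2 * m := Nat.log_pow (by norm_num) _
      intro i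
      fin_cases i
      · show (count (sys 0) (2 ^ (2 * m)) chi 0 : ℝ) < c * ((2 ^ (2 * m) : ℕ) : ℝ) ^ 1
        rw [count_zero, pow_one]
        have : (0 : ℝ) ≤ m := by positivity
        simp only [Nat.cast_zero]
        linarith
      · show (count (sys 2) (2 ^ (2 * m)) chi 1 : ℝ) < c * ((2 ^ (2 * m) : ℕ) : ℝ) ^ 1
        rw [pow_one]
        have h3 := count_two (2 ^ (2 * m)) 1
        rw [hlog] at h3
        have h4 : (count (sys 2) (2 ^ (2 * m)) chi 1 : ℝ) ≤ 2 * m + 1 := by exact_mod_cast h3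
        linarith

end Pool.Agent.Results.MP_9bc523_co.NoSupersaturation
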